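import Pool.Agent.Helper106.LG.Asm
import Pool.Agent.Helper106.LG.C
import Pool.Agent.Helper106.LG.D
import Pool.Agent.Helper106.LG.F
import Pool.Agent.Helper106.LG.G
import Pool.Agent.Helper106.LG.H1
import Pool.Agent.Helper106.LG.H2
import Pool.Agent.Helper106.LG.H3
import Pool.Agent.Helper106.LG.I
import Pool.Agent.Helper106.LG.J1K1
import Pool.Agent.Helper106.LG.J2
import Pool.Agent.Helper106.LG.J3
import Pool.Agent.Helper106.LG.TaskA
import Pool.Agent.Helper106.LG.TaskB
import Pool.Agent.Helper106.LG.TaskE

set_option autoImplicit false

/-!
# Continuum many finitely generated LEF groups with pairwise incomparable LEF growth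

There is a family `G f`, `f : ℕ → Bool`, of finitely generated LEF groups such that for `f ≠ g` the
groups `G f` and `G g` are not isomorphic and, for all finite generating sets `S` of `G f` and `T` of
`G g`, the LEF growth function of `G f` with respect to `S` is not dominated by the one of `G g` with
respect to `T` (so, exchanging `f` and `g`, the two functions are incomparable; in particular they are
not equivalent). This answers the question positively.

`Dom f₁ f₂` is a weak form of domination: `f₁ n ≤ f₂ ⌈C n⌉` for some real `C > 0` and all integers
`n ≥ 1`.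

The groups: `F₂` acts on `ℤ × ℤ`, the first generator shifts the row `0`, the second one shifts the
columns with first coordinate in a set `P`; `G` is the group generated in
`Perm ((ℤ × ℤ) × Fin 3) × F₂` by the two generators and the lamps (permutations of `Fin 3` at `(0, 0)`),
that is, the permutational wreath product of the symmetric group `S₃` with `F₂` over the orbit of
`(0, 0)`. If `P` contains the interval `[D, 2D)`, the LEF growth at `20 D` is at least `2 ^ (D²)`; if `P`
is sparse up to the scale `D`, it is much smaller.
-/

namespace Pool.Agent.Results.MP_bb1fdc_al.LefGrowthAntichain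

open Pool.Agent.Helper106.LG

theorem result : ∃ (G : (ℕ → Bool) → Type) (_ : ∀ f, Group (G f)),
    (∀ f, Group.FG (G f)) ∧ (∀ f, IsLEF (G f)) ∧
    ∀ f g, f ≠ g → IsEmpty (G f ≃* G g) ∧
      ∀ (S : Set (G f)) (T : Set (G g)), S.Finite → Subgroup.closure S = ⊤ → T.Finite →
        Subgroup.closure T = ⊤ → ¬ Dom (lefGrowth S) (lefGrowth T) :=
  main (stG stF) (stH3 stA (stC stB) stD1 stD2 stE stH1 stH2) stI stJ1 stJ2 stJ3 stK1

end Pool.Agent.Results.MP_bb1fdc_al.LefGrowthAntichain
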